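import Pool.Agent.H67VRC.Hyp

set_option autoImplicit false

namespace Pool.Agent.Results.MP_61a31f_al.AmalgVRC

universe u v

/-- `H` is a virtual retract of `G`: there are a subgroup `K` of finite index containing `H` and a
homomorphism `ρ : K → H` which is the identity on `H`. -/
def VirtualRetract {G : Type*} [Group G] (H : Subgroup G) : Prop :=
  ∃ K : Subgroup G, K.FiniteIndex ∧ H ≤ K ∧
    ∃ ρ : K →* H, ∀ (h : H) (hk : (h : G) ∈ K), ρ ⟨h, hk⟩ = h

/-- Property (VRC): every cyclic subgroup is a virtual retract. -/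
def VRC (G : Type*) [Group G] : Prop := ∀ g : G, VirtualRetract (Subgroup.zpowers g)

/-- The group is virtually cyclic: some cyclic subgroup has finite index. -/
def VirtuallyCyclic (G : Type*) [Group G] : Prop := ∃ z : G, (Subgroup.zpowers z).FiniteIndex

/-- The amalgamated free product `P *_{R=S} Q` identifying `R ≤ P` with `S ≤ Q` along the
isomorphism `φ : R ≃* S`: the quotient of the free product `P * Q` by the normal closure of the
elements `r φ(r)⁻¹`, `r ∈ R`. -/
abbrev Amalgam {P : Type u} {Q : Type v} [Group P] [Group Q] (R : Subgroup P) (S : Subgroup Q)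
    (φ : R ≃* S) : Type (max u v) :=
  Monoid.Coprod P Q ⧸ Subgroup.normalClosure (Set.range fun r : R =>
    (Monoid.Coprod.inl (r : P) : Monoid.Coprod P Q) * (Monoid.Coprod.inr ((φ r : S) : Q))⁻¹)

theorem virtualRetract_iff {G : Type*} [Group G] (H : Subgroup G) :
    VirtualRetract H ↔ Pool.Agent.H67LR.VRet H := by
  constructor
  · rintro ⟨K, hK, hHK, ρ, hρ⟩
    exact ⟨K, hK, hHK, H.subtype.comp ρ, fun k => (ρ k).2,
      fun h hk hh => congrArg Subtype.val (hρ ⟨h, hh⟩ hk)⟩
  · rintro ⟨K, hK, hHK, ρ, h1, h2⟩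
    exact ⟨K, hK, hHK, ρ.codRestrict H h1, fun h hk => Subtype.ext (h2 h hk h.2)⟩

theorem vrc_iff (G : Type*) [Group G] : VRC G ↔ Pool.Agent.H67VRC.VRC G :=
  forall_congr' fun _ => virtualRetract_iff _

/-- The amalgamated free product of two groups with property (VRC) along isomorphic virtually
cyclic subgroups has property (VRC). -/
theorem result (P : Type u) (Q : Type v) [Group P] [Group Q] (hP : VRC P) (hQ : VRC Q)
    (R : Subgroup P) (S : Subgroup Q) (φ : R ≃* S) (hR : VirtuallyCyclic R) :
    VRC (Amalgam R S φ) := by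
  obtain ⟨z, hz⟩ := hR
  rw [vrc_iff] at hP hQ ⊢
  exact Pool.Agent.H67VRC.amalg_vrc R.subtype (S.subtype.comp φ.toMonoidHom) hP hQ
    R.subtype_injective (fun a b h => φ.injective (S.subtype_injective h)) z hz

end Pool.Agent.Results.MP_61a31f_al.AmalgVRC
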